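import Mathlib
import Pool.Agent.H.MP_51245c_nt.G

set_option autoImplicit false

namespace Pool.Agent.Results.MP_51245c_nt.Q1

open Matrix Polynomial Pool.Agent.H4489 Pool.Agent.H5124

/-- the matrix `H(m, n)` -/
def H (m n : ℤ) : Matrix (Fin 3) (Fin 3) ℤ := !![1, 1, m + n; 2, 1, 2 * m + n; 0, 3, 3 * n - 1]

/-- determinant one, characteristic polynomial irreducible over `ℚ`, one real eigenvalue and a
pair of complex conjugate non-real eigenvalues -/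
def IsNRS (A : Matrix (Fin 3) (Fin 3) ℤ) : Prop :=
  A.det = 1 ∧ Irreducible (A.charpoly.map (Int.castRingHom ℚ)) ∧
    ∃ (ρ : ℝ) (z : ℂ), z.im ≠ 0 ∧
      (A.charpoly.map (Int.castRingHom ℂ)).roots = {(ρ : ℂ), z, (starRingEnd ℂ) z}

/-- Hessenberg complexity -/
def complexity (A : Matrix (Fin 3) (Fin 3) ℤ) : ℤ := A 1 0 ^ 2 * |A 2 1|

/-- least complexity among the upper Hessenberg matrices conjugate to `A` under `GL(3, ℤ)` -/
def Reduced (A : Matrix (Fin 3) (Fin 3) ℤ) : Prop :=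
  ∀ (A' : Matrix (Fin 3) (Fin 3) ℤ) (P : GL (Fin 3) ℤ), A' 2 0 = 0 →
    A' = (P : Matrix (Fin 3) (Fin 3) ℤ) * A * ((P⁻¹ : GL (Fin 3) ℤ) : Matrix (Fin 3) (Fin 3) ℤ) →
      complexity A ≤ complexity A'

lemma Hdet (m n : ℤ) : (H m n).det = 1 := by
  simp [H, det_fin_three]; ring

lemma cp (m n : ℤ) : (H m n).charpoly = cub ℤ (3 * n + 1) (3 * n - 6 * m - 3) := by
  rw [cp_eq (H m n) (Hdet m n)]
  congr 1
  · simp [ta, H]; ring
  · simp [tb, H]; ring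

lemma cx (m n : ℤ) : complexity (H m n) = 12 := by
  simp [complexity, H]

lemma F_eq (m n : ℤ) (v : Fin 3 → ℤ) :
    18 * d3 v (H m n *ᵥ v) (H m n *ᵥ (H m n *ᵥ v)) =
      Nf (3 * n + 1) (3 * n - 6 * m - 3) (6 * v 0 - 3 * v 1 - (3 * n - 6 * m - 2) * v 2)
        (3 * v 1 + (3 * n - 1) * v 2) (v 2) := by
  simp [H, d3, mulVec, dotProduct, Fin.sum_univ_three, Nf]
  ring

lemma nonred (A : Matrix (Fin 3) (Fin 3) ℤ) (v w u : Fin 3 → ℤ) (h1 : d3 v w u = 1)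
    (h2 : d3 v w (A *ᵥ v) = 0) (h3 : |d3 v (A *ᵥ v) (A *ᵥ (A *ᵥ v))| < complexity A) :
    ¬ Reduced A := by
  intro hR
  set Q : Matrix (Fin 3) (Fin 3) ℤ := !![v 0, w 0, u 0; v 1, w 1, u 1; v 2, w 2, u 2] with hQ
  have hd : Q.det = 1 := by
    rw [← h1]; simp [hQ, det_fin_three, d3]; ring
  have e1 : Q * Q.adjugate = 1 := by rw [mul_adjugate, hd, one_smul]
  have e2 : Q.adjugate * Q = 1 := by rw [adjugate_mul, hd, one_smul]
  have h0 : (Q.adjugate * A * Q) 2 0 = 0 := by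
    rw [← h2]
    simp [hQ, adjugate_fin_three, mul_apply, Fin.sum_univ_three, d3, mulVec, vecMul, dotProduct]
    ring
  have hv : Q *ᵥ ![1, 0, 0] = v := by
    ext i; fin_cases i <;> simp [hQ, mulVec, dotProduct, Fin.sum_univ_three]
  have h4 := conjF A Q.adjugate Q e1 h0
  rw [hv] at h4
  have := hR (Q.adjugate * A * Q) ⟨Q.adjugate, Q, e2, e1⟩ h0 rfl
  rw [h4] at h3
  exact absurd this (not_le.mpr h3)

def mv (m n : ℤ) (v : Fin 3 → ℤ) : Fin 3 → ℤ :=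
  ![v 0 + v 1 + (m + n) * v 2, 2 * v 0 + v 1 + (2 * m + n) * v 2, 3 * v 1 + (3 * n - 1) * v 2]

lemma mv_eq (m n : ℤ) (v : Fin 3 → ℤ) : H m n *ᵥ v = mv m n v := by
  ext i; fin_cases i <;> simp [H, mv, mulVec, dotProduct, Fin.sum_univ_three]

def W : List (ℤ × ℤ × (Fin 3 → ℤ) × (Fin 3 → ℤ) × (Fin 3 → ℤ)) :=
  [(-21, -7, ![-2, -4, -1], ![22, 41, 10], ![-1, -1, 0]),
    (16, 27, ![-1, -2, 1], ![40, 55, 74], ![-41, -73, 0]),
    (-8, -4, ![-1, -2, -1], ![5, 9, 4], ![0, 0, 1]),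
    (-5, -3, ![-1, -2, -1], ![5, 9, 4], ![0, 0, 1]),
    (-6, -3, ![-1, -2, -1], ![6, 11, 4], ![0, 0, 1]),
    (2, 3, ![0, 0, -1], ![-5, -7, -8], ![2, 3, 0]),
    (3, 5, ![0, 0, -1], ![-8, -11, -14], ![-3, -4, 0]),
    (-3, -2, ![-1, -1, 0], ![-2, -3, -3], ![0, 0, 1]),
    (-4, -2, ![-1, -2, -1], ![2, 4, 1], ![0, -1, 0]),
    (1, 2, ![0, 0, -1], ![-3, -4, -5], ![-1, -1, 0]),
    (2, 4, ![0, 0, -1], ![-3, -4, -5], ![-1, -1, 0]),
    (-2, -1, ![0, 0, -1], ![3, 5, 4], ![-1, -2, 0]),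
    (-3, -1, ![-1, -1, -1], ![2, 4, 1], ![0, 1, -1]),
    (0, 1, ![0, -1, 0], ![-1, -1, -3], ![0, 0, -1]),
    (1, 3, ![0, 0, -1], ![-4, -5, -8], ![-1, -1, 0]),
    (-1, 0, ![0, -1, 0], ![-1, -1, -3], ![0, 0, -1]),
    (-2, 0, ![0, 0, -1], ![1, 2, 1], ![0, -1, 0]),
    (0, 2, ![0, -1, 0], ![-1, -1, -3], ![0, 0, -1]),
    (1, 4, ![-1, -1, -2], ![-12, -15, -25], ![0, -1, 0]),
    (-1, 1, ![0, -1, 0], ![-1, -1, -3], ![0, 0, -1]),
    (-2, 1, ![0, 0, -1], ![1, 3, -2], ![0, -1, 0]),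
    (0, 3, ![0, -1, 0], ![-1, -1, -3], ![0, 0, -1]),
    (1, 5, ![-1, -2, -1], ![-9, -11, -20], ![-3, -8, 0]),
    (-2, 2, ![0, 0, -1], ![0, 1, -2], ![1, 0, 0]),
    (2, 8, ![-1, -2, -1], ![-6, -7, -14], ![-3, -8, 0]),
    (-9, 5, ![-1, -2, 1], ![-7, -17, 8], ![0, 1, 0]),
    (10, 27, ![-2, -4, -1], ![-43, -55, -92], ![-50, -111, 0])]

def S : Finset (ℤ × ℤ) := (W.map fun t => (t.1, t.2.1)).toFinset

lemma W_ok : ∀ t ∈ W, 0 < Dl (3 * t.2.1 + 1) (3 * t.2.1 - 6 * t.1 - 3) ∧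
    3 * t.2.1 + 1 + (3 * t.2.1 - 6 * t.1 - 3) + 2 ≠ 0 ∧
    d3 t.2.2.1 t.2.2.2.1 t.2.2.2.2 = 1 ∧ d3 t.2.2.1 t.2.2.2.1 (mv t.1 t.2.1 t.2.2.1) = 0 ∧
    |d3 t.2.2.1 (mv t.1 t.2.1 t.2.2.1) (mv t.1 t.2.1 (mv t.1 t.2.1 t.2.2.1))| < 12 := by
  decide +kernel

lemma key (m n : ℤ) (h : (3 * n + 1, 3 * n - 6 * m - 3) ∈ L5 ∨ (3 * n - 6 * m - 3, 3 * n + 1) ∈ L5) :
    (m, n) ∈ S := by
  have h2 : ∀ t ∈ L5, (t.1 % 3 = 1 → ((t.1 - t.2 - 4) / 6, (t.1 - 1) / 3) ∈ S) ∧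
      (t.2 % 3 = 1 → ((t.2 - t.1 - 4) / 6, (t.2 - 1) / 3) ∈ S) := by
    decide +kernel
  have hm : (3 * n + 1 - (3 * n - 6 * m - 3) - 4) / 6 = m := by omega
  have hn : (3 * n + 1 - 1) / 3 = n := by omega
  rcases h with h | h
  · have := (h2 _ h).1 (by simp only; omega)
    simp only at this
    rwa [hm, hn] at this
  · have := (h2 _ h).2 (by simp only; omega)
    simp only at this
    rwa [hm, hn] at this

theorem result : {p : ℤ × ℤ | IsNRS (H p.1 p.2) ∧ ¬ Reduced (H p.1 p.2)}.ncard = 27 := by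
  have hS : {p : ℤ × ℤ | IsNRS (H p.1 p.2) ∧ ¬ Reduced (H p.1 p.2)} = (S : Set (ℤ × ℤ)) := by
    ext ⟨m, n⟩
    simp only [Set.mem_ofPred_eq, IsNRS, cp, cub_map, Finset.mem_coe]
    constructor
    · rintro ⟨⟨-, hi, ρ, z, hzi, hz⟩, hR⟩
      obtain ⟨ρ, s, τ, h⟩ := setup_of_root _ _ z hzi (by rw [hz]; simp)
      unfold Reduced at hR
      push Not at hR
      obtain ⟨A', P, h0, rfl, hlt⟩ := hR
      set Q : Matrix (Fin 3) (Fin 3) ℤ := ((P⁻¹ : GL (Fin 3) ℤ) : Matrix (Fin 3) (Fin 3) ℤ) with hQ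
      have hQP : Q * (P : Matrix (Fin 3) (Fin 3) ℤ) = 1 := by rw [hQ]; exact Units.inv_mul P
      have hPQ : (P : Matrix (Fin 3) (Fin 3) ℤ) * Q = 1 := by rw [hQ]; exact Units.mul_inv P
      have h4 := conjF (H m n) P Q hQP h0
      have hv : Q *ᵥ ![1, 0, 0] ≠ 0 := by
        intro hv
        have : (P : Matrix (Fin 3) (Fin 3) ℤ) *ᵥ (Q *ᵥ ![1, 0, 0]) = 0 := by rw [hv, mulVec_zero]
        rw [mulVec_mulVec, hPQ, one_mulVec] at this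
        simpa using congrFun this 0
      rw [cx, complexity, ← h4] at hlt
      generalize Q *ᵥ ![1, 0, 0] = v at hv hlt
      have e := F_eq m n v
      have hS5 : S5 (3 * n + 1) (3 * n - 6 * m - 3) := by
        refine ⟨6 * v 0 - 3 * v 1 - (3 * n - 6 * m - 2) * v 2, 3 * v 1 + (3 * n - 1) * v 2, v 2,
          ⟨⟨v 1 + n * v 2, by ring⟩,
            ⟨2 * v 0 + 3 * n * v 1 + (3 * n ^ 2 - n + 2 * m) * v 2, by ring⟩,
            ⟨3 * v 0 + (3 * m + 1) * v 2, by ring⟩⟩, ?_, ?_⟩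
        · intro h0
          obtain ⟨h1, h2, h3⟩ := Nf_ne h hi _ _ _ h0
          rw [h3] at h1 h2
          apply hv
          have hy : v 1 = 0 := by omega
          have hx : v 0 = 0 := by omega
          ext i; fin_cases i
          · exact hx
          · exact hy
          · exact h3
        · rw [← e, abs_mul]
          have h18 : |(18 : ℤ)| = 18 := rfl
          rw [h18]
          omega
      exact key m n (thmC h (ne_of_irr hi) (by omega) (by omega) (by omega) hS5)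
    · intro hm
      simp only [S, List.mem_toFinset, List.mem_map, Prod.mk.injEq] at hm
      obtain ⟨⟨m', n', v, w, u⟩, ht, rfl, rfl⟩ := hm
      obtain ⟨h1, h2, h3, h4, h5⟩ := W_ok _ ht
      refine ⟨⟨Hdet _ _, cub_irr _ _ (by omega) h2, roots_of_Dl _ _ h1⟩, ?_⟩
      apply nonred _ v w u h3
      · rw [mv_eq]; exact h4
      · rw [cx, mv_eq, mv_eq]; exact h5
  rw [hS, Set.ncard_coe_finset]
  decide +kernel

end Pool.Agent.Results.MP_51245c_nt.Q1
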